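import Mathlib

/-!
The three squares lemma in the form of Fraenkel–Simpson (proof after Ilie) for `MP_922422_co`.
-/

set_option autoImplicit false

namespace Pool.Agent.N554.PW

/-- Fine–Wilf for a prefix of length `n ≥ p + q`. -/
lemma fine_wilf {A : Type*} (s : ℕ → A) (n : ℕ) : ∀ (m p q : ℕ), p + q ≤ m → 1 ≤ p → 1 ≤ q →
    p + q ≤ n → (∀ j, j + p < n → s (j + p) = s j) → (∀ j, j + q < n → s (j + q) = s j) →
    ∃ g, 1 ≤ g ∧ g ∣ p ∧ g ∣ q ∧ ∀ j, j + g < n → s (j + g) = s j := by
  intro m
  induction m with
  | zero => intro p q h1 h2; omega
  | succ m ih =>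
    intro p q hm hp1 hq1 hn hp hq
    rcases lt_trichotomy p q with h | h | h
    · have hqp : ∀ j, j + (q - p) < n → s (j + (q - p)) = s j := by
        intro j hj
        rcases lt_or_ge j p with hjp | hjp
        · have e1 := hp (j + (q - p)) (by omega)
          rw [show j + (q - p) + p = j + q by omega] at e1
          rw [← e1]; exact hq j (by omega)
        · have e1 := hq (j - p) (by omega)
          have e2 := hp (j - p) (by omega)
          rw [show j - p + q = j + (q - p) by omega] at e1
          rw [show j - p + p = j by omega] at e2
          rw [e1, e2]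
      obtain ⟨g, g1, g2, g3, g4⟩ := ih p (q - p) (by omega) hp1 (by omega) (by omega) hp hqp
      refine ⟨g, g1, g2, ?_, g4⟩
      have := Nat.dvd_add g2 g3
      rwa [show p + (q - p) = q by omega] at this
    · subst h
      exact ⟨p, hp1, dvd_rfl, dvd_rfl, hp⟩
    · have hpq : ∀ j, j + (p - q) < n → s (j + (p - q)) = s j := by
        intro j hj
        rcases lt_or_ge j q with hjp | hjp
        · have e1 := hq (j + (p - q)) (by omega)
          rw [show j + (p - q) + q = j + p by omega] at e1
          rw [← e1]; exact hp j (by omega)
        · have e1 := hp (j - q) (by omega)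
          have e2 := hq (j - q) (by omega)
          rw [show j - q + p = j + (p - q) by omega] at e1
          rw [show j - q + q = j by omega] at e2
          rw [e1, e2]
      obtain ⟨g, g1, g2, g3, g4⟩ := ih (p - q) q (by omega) (by omega) hq1 (by omega) hpq hq
      refine ⟨g, g1, ?_, g3, g4⟩
      have := Nat.dvd_add g2 g3
      rwa [show p - q + q = p by omega] at this

/-- If squares of periods `u < v < w` start at `0` then the square of period `u` occurs again at
some `t ≥ 1` inside the longest one. -/
lemma three_squares {A : Type*} (s : ℕ → A) (u v w : ℕ) (hu0 : 1 ≤ u) (huv : u < v) (hvw : v < w)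
    (hu : ∀ j, j < u → s (j + u) = s j) (hv : ∀ j, j < v → s (j + v) = s j)
    (hw : ∀ j, j < w → s (j + w) = s j) :
    ∃ t, 1 ≤ t ∧ t + 2 * u ≤ 2 * w ∧ ∀ j, j < 2 * u → s (j + t) = s j := by
  rcases lt_or_ge w (2 * u) with hlt | hge
  swap
  · exact ⟨w, by omega, by omega, fun j hj => hw j (by omega)⟩
  obtain ⟨p, hp⟩ : ∃ p, v = u + p := ⟨v - u, by omega⟩
  obtain ⟨q, hq⟩ : ∃ q, w = v + q := ⟨w - v, by omega⟩
  have up : ∀ j, j + p < u → s (j + p) = s j := by
    intro j hj
    have e1 := hu (j + p) hj
    rw [show j + p + u = j + v by omega] at e1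
    rw [← e1]; exact hv j (by omega)
  have vq : ∀ j, j + q < v → s (j + q) = s j := by
    intro j hj
    have e1 := hv (j + q) hj
    rw [show j + q + v = j + w by omega] at e1
    rw [← e1]; exact hw j (by omega)
  obtain ⟨g, g1, g2, g3, g4⟩ := fine_wilf s u (p + q) p q le_rfl (by omega) (by omega) (by omega)
    up (fun j hj => vq j (by omega))
  have hgp : g ≤ p := Nat.le_of_dvd (by omega) g2
  have hgq : g ≤ q := Nat.le_of_dvd (by omega) g3
  have vg : ∀ j, j + g < v → s (j + g) = s j := by
    intro j
    induction j using Nat.strong_induction_on with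
    | _ j ih =>
      intro hj
      rcases lt_or_ge (j + g) u with h | h
      · exact g4 j h
      · have hjq : q ≤ j := by omega
        have e1 := vq (j - q + g) (by omega)
        have e2 := vq (j - q) (by omega)
        have e3 := ih (j - q) (by omega) (by omega)
        rw [show j - q + g + q = j + g by omega] at e1
        rw [show j - q + q = j by omega] at e2
        rw [e1, e3, e2]
  have all : ∀ j, j + g < w + u → s (j + g) = s j := by
    intro j hj
    rcases lt_or_ge (j + g) v with h | h
    · exact vg j h
    · rcases lt_or_ge (j + g) (2 * u) with h2 | h2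
      · have e1 := hu (j - u + g) (by omega)
        have e2 := hu (j - u) (by omega)
        have e3 := vg (j - u) (by omega)
        rw [show j - u + g + u = j + g by omega] at e1
        rw [show j - u + u = j by omega] at e2
        rw [e1, e3, e2]
      · rcases lt_or_ge (j + g) (2 * v) with h3 | h3
        · have e1 := hv (j - v + g) (by omega)
          have e2 := hv (j - v) (by omega)
          have e3 := vg (j - v) (by omega)
          rw [show j - v + g + v = j + g by omega] at e1
          rw [show j - v + v = j by omega] at e2
          rw [e1, e3, e2]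
        · have e1 := hw (j - w + g) (by omega)
          have e2 := hw (j - w) (by omega)
          have e3 := vg (j - w) (by omega)
          rw [show j - w + g + w = j + g by omega] at e1
          rw [show j - w + w = j by omega] at e2
          rw [e1, e3, e2]
  exact ⟨g, g1, by omega, fun j hj => all j (by omega)⟩

end Pool.Agent.N554.PW
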