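import Pool.Agent.N554.PW.Tok

/-!
Letter level for `MP_922422_co`: blocks of length `2a+5` for the tokens.
-/

set_option autoImplicit false

namespace Pool.Agent.N554.PW

/-- Letter `r` of the block of the token `t`. -/
def blk {k : ℕ} (z o : Fin k) (F : ℕ → ℕ → Fin k) (a t r : ℕ) : Fin k :=
  if r < a then (if t = 0 then o else F (t - 1) r)
  else if r = a then o
  else if r ≤ 2 * a + 2 then z
  else if r = 2 * a + 3 then o
  else (if t = 0 then z else o)

/-- The full word for the filling `c`. -/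
def Wc {k : ℕ} (z o : Fin k) (F : ℕ → ℕ → Fin k) (a N c j : ℕ) : Fin k :=
  blk z o F a (tc N c (j / (2 * a + 5))) (j % (2 * a + 5))

/-- The partial word. -/
def W {k : ℕ} (z o : Fin k) (F : ℕ → ℕ → Fin k) (a N : ℕ) (H : Finset ℕ) (j : ℕ) :
    Option (Fin k) :=
  if j ∈ H then none else some (Wc z o F a N 1 j)

variable {k : ℕ} {z o : Fin k} {F : ℕ → ℕ → Fin k} {a N : ℕ} {H : Finset ℕ} {d : ℕ}

lemma Wc_block (c q r : ℕ) (hr : r < 2 * a + 5) :
    Wc z o F a N c ((2 * a + 5) * q + r) = blk z o F a (tc N c q) r := by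
  unfold Wc
  rw [Nat.mul_add_div (by omega), Nat.mul_add_mod, Nat.div_eq_of_lt hr, Nat.mod_eq_of_lt hr,
    Nat.add_zero]

lemma Wc_block' (c q r j : ℕ) (hj : j = (2 * a + 5) * q + r) (hr : r < 2 * a + 5) :
    Wc z o F a N c j = blk z o F a (tc N c q) r := by
  rw [hj]; exact Wc_block c q r hr

lemma blk_a (t : ℕ) : blk z o F a t a = o := by
  simp [blk]

lemma blk_b (t : ℕ) : blk z o F a t (2 * a + 3) = o := by
  unfold blk
  rw [if_neg (by omega), if_neg (by omega), if_neg (by omega), if_pos rfl]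

lemma blk_z (t r : ℕ) (h1 : a + 1 ≤ r) (h2 : r ≤ 2 * a + 2) : blk z o F a t r = z := by
  unfold blk
  rw [if_neg (by omega), if_neg (by omega), if_pos h2]

lemma blk_type (t : ℕ) : blk z o F a t (2 * a + 4) = if t = 0 then z else o := by
  unfold blk
  rw [if_neg (by omega), if_neg (by omega), if_neg (by omega), if_neg (by omega)]

lemma blk_low (t r : ℕ) (hr : r < a) : blk z o F a t r = if t = 0 then o else F (t - 1) r := by
  unfold blk
  rw [if_pos hr]

lemma blk_d (hd : ∀ t ∈ H, d ≤ t) (hda : d < a) (hF1 : ∀ i r, r ∉ H → F i r = o) (t r : ℕ)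
    (hr : r < d) : blk z o F a t r = o := by
  rw [blk_low t r (by omega)]
  have : r ∉ H := fun h => by have := hd r h; omega
  rw [hF1 _ _ this]
  simp

lemma blk_same (hH : ∀ t ∈ H, t < a) (hF1 : ∀ i r, r ∉ H → F i r = o) (c c' r : ℕ) (hc : 1 ≤ c)
    (hc' : 1 ≤ c') (hr : r ∉ H) : blk z o F a c r = blk z o F a c' r := by
  have h1 : c ≠ 0 := by omega
  have h2 : c' ≠ 0 := by omega
  unfold blk
  rw [hF1 _ _ hr, hF1 _ _ hr]
  simp only [if_neg h1, if_neg h2]

lemma Wc_big (c j : ℕ) (hj : 2 * a + 5 ≤ j) : Wc z o F a N 1 j = Wc z o F a N c j := by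
  unfold Wc
  have : 1 ≤ j / (2 * a + 5) := (Nat.one_le_div_iff (by omega)).2 hj
  rw [tc_pos _ _ _ this, tc_pos _ _ _ this]

lemma W_none_or (hH : ∀ t ∈ H, t < a) (hF1 : ∀ i r, r ∉ H → F i r = o) (c j : ℕ) (hc : 1 ≤ c) :
    W z o F a N H j = none ∨ W z o F a N H j = some (Wc z o F a N c j) := by
  unfold W
  by_cases hj : j ∈ H
  · left; rw [if_pos hj]
  · right
    rw [if_neg hj]
    rcases lt_or_ge j (2 * a + 5) with h | h
    · rw [Wc_block' 1 0 j j (by omega) h, Wc_block' c 0 j j (by omega) h, tc_zero, tc_zero,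
        blk_same hH hF1 1 c j le_rfl hc hj]
    · rw [Wc_big c j h]

lemma W_some (hH : ∀ t ∈ H, t < a) (j : ℕ) (hj : a ≤ j) :
    W z o F a N H j = some (Wc z o F a N 1 j) := by
  unfold W
  rw [if_neg (fun h => by have := hH j h; omega)]

lemma Wc_period (hd : ∀ t ∈ H, d ≤ t) (hda : d < a) (hF1 : ∀ i r, r ∉ H → F i r = o)
    (c P : ℕ) (hP : ∀ q, q < P → tc N c (q + P) = tc N c q) (j : ℕ)
    (hj : j < (2 * a + 5) * P + d) :
    Wc z o F a N c (j + (2 * a + 5) * P) = Wc z o F a N c j := by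
  have hb : 0 < 2 * a + 5 := by omega
  have hr : j % (2 * a + 5) < 2 * a + 5 := Nat.mod_lt _ hb
  have hj' : j = (2 * a + 5) * (j / (2 * a + 5)) + j % (2 * a + 5) := (Nat.div_add_mod _ _).symm
  generalize hq : j / (2 * a + 5) = q at *
  generalize hrr : j % (2 * a + 5) = r at *
  rw [Wc_block' c q r j hj' hr, Wc_block' c (q + P) r _ (by rw [hj']; ring) hr]
  rcases lt_or_ge q P with h | h
  · rw [hP q h]
  · have : r < d := by
      have : (2 * a + 5) * P ≤ (2 * a + 5) * q := Nat.mul_le_mul_left _ h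
      omega
    rw [blk_d hd hda hF1 _ _ this, blk_d hd hda hF1 _ _ this]

lemma sync (hzo : z ≠ o) (v : ℕ) (h : ∀ s, s < a + 2 → Wc z o F a N 1 (v + s) = z) :
    v % (2 * a + 5) = a + 1 := by
  have hb : 0 < 2 * a + 5 := by omega
  have hr : v % (2 * a + 5) < 2 * a + 5 := Nat.mod_lt _ hb
  have hv : v = (2 * a + 5) * (v / (2 * a + 5)) + v % (2 * a + 5) := (Nat.div_add_mod _ _).symm
  generalize v / (2 * a + 5) = q at *
  generalize v % (2 * a + 5) = r at *
  by_contra hne
  rcases lt_or_ge a r with h1 | h1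
  · rcases lt_or_ge (2 * a + 3) r with h2 | h2
    · have := h (a + 1) (by omega)
      rw [Wc_block' 1 (q + 1) a _ (by rw [hv, Nat.mul_add]; omega) (by omega), blk_a] at this
      exact hzo this.symm
    · have := h (2 * a + 3 - r) (by omega)
      rw [Wc_block' 1 q (2 * a + 3) _ (by omega) (by omega), blk_b] at this
      exact hzo this.symm
  · have := h (a - r) (by omega)
    rw [Wc_block' 1 q a _ (by omega) (by omega), blk_a] at this
    exact hzo this.symm

lemma token_eq (hzo : z ≠ o) (hH : ∀ t ∈ H, t < a) (hd : ∀ t ∈ H, d ≤ t) (hda : d < a)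
    (hF2 : ∀ i, i < N → ∀ i', i' < N → (∀ r ∈ H, F i r = F i' r) → i = i')
    (t c : ℕ) (hc : 1 ≤ c) (hcN : c ≤ N) (htN : t ≤ N)
    (h : ∀ r, d ≤ r → r < 2 * a + 5 → blk z o F a t r = blk z o F a c r) : t = c := by
  have h1 := h (2 * a + 4) (by omega) (by omega)
  rw [blk_type, blk_type, if_neg (by omega : ¬ c = 0)] at h1
  have ht : t ≠ 0 := by
    intro h0
    rw [if_pos h0] at h1
    exact hzo h1
  have h2 := hF2 (t - 1) (by omega) (c - 1) (by omega) (fun r hr => by
    have := h r (hd r hr) (by have := hH r hr; omega)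
    rw [blk_low _ _ (hH r hr), blk_low _ _ (hH r hr), if_neg ht, if_neg (by omega)] at this
    exact this)
  omega

/-- A square of filling `e+1` read from position `j ≤ d` does not occur later. -/
lemma no_later (hzo : z ≠ o) (hH : ∀ t ∈ H, t < a) (hd : ∀ t ∈ H, d ≤ t) (hda : d < a)
    (hF2 : ∀ i, i < N → ∀ i', i' < N → (∀ r ∈ H, F i r = F i' r) → i = i')
    (e P : ℕ) (he : e + 1 ≤ N) (hP : 3 * Ln e + 2 < 2 * P) (j j' : ℕ) (hj : j ≤ d) (hj' : j < j')
    (h : ∀ r, r < 2 * ((2 * a + 5) * P) → W z o F a N H (j' + r) = none ∨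
      W z o F a N H (j' + r) = some (Wc z o F a N (e + 1) (j + r))) : False := by
  obtain ⟨u, hu⟩ : ∃ u, j' = u + j := ⟨j' - j, by omega⟩
  have hu1 : 1 ≤ u := by omega
  have hP1 : 1 ≤ P := by omega
  have hbP : (2 * a + 5) * 1 ≤ (2 * a + 5) * P := Nat.mul_le_mul_left _ hP1
  have key : ∀ r, j ≤ r → r < 2 * ((2 * a + 5) * P) → a ≤ u + r →
      Wc z o F a N 1 (u + r) = Wc z o F a N (e + 1) r := by
    intro r h1 h2 h3
    have := h (r - j) (by omega)
    rw [show j' + (r - j) = u + r by omega, show j + (r - j) = r by omega,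
      W_some hH _ h3] at this
    simpa using this
  have hs := sync (a := a) (N := N) (F := F) hzo (u + (a + 1)) (fun s hs => by
    rw [Nat.add_assoc, key (a + 1 + s) (by omega) (by omega) (by omega),
      Wc_block' (e + 1) 0 (a + 1 + s) _ (by omega) (by omega), blk_z _ _ (by omega) (by omega)])
  obtain ⟨J, hJ⟩ : ∃ J, u = (2 * a + 5) * J := by
    refine ⟨(u + (a + 1)) / (2 * a + 5), ?_⟩
    have := Nat.div_add_mod (u + (a + 1)) (2 * a + 5)
    omega
  have hJ1 : 1 ≤ J := by
    rcases Nat.eq_zero_or_pos J with h0 | h0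
    · rw [h0] at hJ; omega
    · exact h0
  have tok : ∀ q, q < 2 * P → tc N (e + 1) q = e + 1 → G N (J + q) = e + 1 := by
    intro q hq htc
    refine token_eq hzo hH hd hda hF2 _ _ (by omega) he (G_le N _) (fun r h1 h2 => ?_)
    have hqq : (2 * a + 5) * (q + 1) ≤ (2 * a + 5) * (2 * P) := Nat.mul_le_mul_left _ hq
    have e1 : (2 * a + 5) * (q + 1) = (2 * a + 5) * q + (2 * a + 5) := by ring
    have e2 : (2 * a + 5) * (2 * P) = 2 * ((2 * a + 5) * P) := by ring
    have e3 : (2 * a + 5) * 1 ≤ (2 * a + 5) * J := Nat.mul_le_mul_left _ hJ1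
    have := key ((2 * a + 5) * q + r) (by omega) (by omega) (by omega)
    rw [Wc_block' (e + 1) q r _ rfl h2, htc,
      Wc_block' 1 (J + q) r _ (by rw [hJ]; ring) h2, tc_pos _ _ _ (by omega)] at this
    exact this
  have A := tc_at e N he
  have hL := Ln_pos e
  refine G_no4 e N he J ?_ ?_ ?_ ?_
  · simpa using tok 0 (by omega) A.1
  · simpa [Nat.add_assoc] using tok (Ln e + 1) (by omega) A.2.1
  · simpa [Nat.add_assoc] using tok (2 * Ln e + 1) (by omega) A.2.2.1
  · simpa [Nat.add_assoc] using tok (3 * Ln e + 2) (by omega) A.2.2.2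

/-- The root of the square read from position `j`. -/
def xl (z o : Fin k) (F : ℕ → ℕ → Fin k) (a N c P j : ℕ) : List (Fin k) :=
  List.ofFn (fun r : Fin ((2 * a + 5) * P) => Wc z o F a N c (j + r))

lemma xl_length (c P j : ℕ) : (xl z o F a N c P j).length = (2 * a + 5) * P := by
  simp [xl]

lemma xl_get (hd : ∀ t ∈ H, d ≤ t) (hda : d < a) (hF1 : ∀ i r, r ∉ H → F i r = o)
    (c P : ℕ) (hP : ∀ q, q < P → tc N c (q + P) = tc N c q) (j : ℕ) (hj : j ≤ d)
    (r : ℕ) (hr : r < 2 * ((2 * a + 5) * P)) :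
    (xl z o F a N c P j ++ xl z o F a N c P j)[r]? = some (Wc z o F a N c (j + r)) := by
  rcases lt_or_ge r ((2 * a + 5) * P) with h | h
  · rw [List.getElem?_append_left (by rw [xl_length]; exact h)]
    unfold xl
    rw [List.getElem?_ofFn]
    simp [h]
  · rw [List.getElem?_append_right (by rw [xl_length]; exact h), xl_length]
    unfold xl
    rw [List.getElem?_ofFn]
    have h2 : r - (2 * a + 5) * P < (2 * a + 5) * P := by omega
    have := Wc_period (z := z) (o := o) (F := F) (N := N) hd hda hF1 c P hP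
      (j + (r - (2 * a + 5) * P)) (by omega)
    rw [show j + (r - (2 * a + 5) * P) + (2 * a + 5) * P = j + r by omega] at this
    simp [h2, this]

end Pool.Agent.N554.PW
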