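import Mathlib

/-!
Token sequences for `MP_922422_co`: the sequence `G n` of tokens at level `n`; the token `c ≥ 1`
never occurs at four positions `J, J+L+1, J+2L+1, J+3L+2` with `L = Ln (c-1)`.
-/

set_option autoImplicit false

namespace Pool.Agent.N554.PW

/-- Length (in tokens) at level `n`. -/
def Ln : ℕ → ℕ
  | 0 => 1
  | n + 1 => 6 * Ln n + 4

/-- Tokens at level `n`: `0` is the separator, `c ≥ 1` a filling. The token at position `0` is a
placeholder. -/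
def G : ℕ → ℕ → ℕ
  | 0, _ => 0
  | n + 1, q =>
    if q < Ln n then G n q
    else if q = Ln n then 0
    else if q < 2 * Ln n + 1 then (if q - (Ln n + 1) = 0 then n + 1 else G n (q - (Ln n + 1)))
    else if q < 3 * Ln n + 1 then
      (if q - (2 * Ln n + 1) = 0 then n + 1 else G n (q - (2 * Ln n + 1)))
    else if q = 3 * Ln n + 1 then 0
    else if q < 4 * Ln n + 2 then
      (if q - (3 * Ln n + 2) = 0 then n + 1 else G n (q - (3 * Ln n + 2)))
    else if q = 4 * Ln n + 2 then 0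
    else if q < 5 * Ln n + 3 then
      (if q - (4 * Ln n + 3) = 0 then n + 1 else G n (q - (4 * Ln n + 3)))
    else if q < 6 * Ln n + 3 then
      (if q - (5 * Ln n + 3) = 0 then n + 1 else G n (q - (5 * Ln n + 3)))
    else 0

/-- Tokens with the placeholder replaced by `c`. -/
def tc (N c q : ℕ) : ℕ := if q = 0 then c else G N q

lemma Ln_pos (n : ℕ) : 1 ≤ Ln n := by
  cases n <;> simp [Ln]

lemma Ln_succ (n : ℕ) : Ln (n + 1) = 6 * Ln n + 4 := rfl

lemma G_spec (n q : ℕ) :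
    (q < Ln n ∧ G (n + 1) q = G n q) ∨
    (q = Ln n ∧ G (n + 1) q = 0) ∨
    (Ln n + 1 ≤ q ∧ q < 2 * Ln n + 1 ∧ G (n + 1) q = tc n (n + 1) (q - (Ln n + 1))) ∨
    (2 * Ln n + 1 ≤ q ∧ q < 3 * Ln n + 1 ∧ G (n + 1) q = tc n (n + 1) (q - (2 * Ln n + 1))) ∨
    (q = 3 * Ln n + 1 ∧ G (n + 1) q = 0) ∨
    (3 * Ln n + 2 ≤ q ∧ q < 4 * Ln n + 2 ∧ G (n + 1) q = tc n (n + 1) (q - (3 * Ln n + 2))) ∨
    (q = 4 * Ln n + 2 ∧ G (n + 1) q = 0) ∨
    (4 * Ln n + 3 ≤ q ∧ q < 5 * Ln n + 3 ∧ G (n + 1) q = tc n (n + 1) (q - (4 * Ln n + 3))) ∨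
    (5 * Ln n + 3 ≤ q ∧ q < 6 * Ln n + 3 ∧ G (n + 1) q = tc n (n + 1) (q - (5 * Ln n + 3))) ∨
    (6 * Ln n + 3 ≤ q ∧ G (n + 1) q = 0) := by
  have hL := Ln_pos n
  have hG : G (n + 1) q = 
    if q < Ln n then G n q
    else if q = Ln n then 0
    else if q < 2 * Ln n + 1 then tc n (n + 1) (q - (Ln n + 1))
    else if q < 3 * Ln n + 1 then tc n (n + 1) (q - (2 * Ln n + 1))
    else if q = 3 * Ln n + 1 then 0
    else if q < 4 * Ln n + 2 then tc n (n + 1) (q - (3 * Ln n + 2))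
    else if q = 4 * Ln n + 2 then 0
    else if q < 5 * Ln n + 3 then tc n (n + 1) (q - (4 * Ln n + 3))
    else if q < 6 * Ln n + 3 then tc n (n + 1) (q - (5 * Ln n + 3))
    else 0 := rfl
  rw [hG]
  by_cases h1 : q < Ln n
  · exact Or.inl ⟨h1, if_pos h1⟩
  rw [if_neg h1]; right
  by_cases h2 : q = Ln n
  · exact Or.inl ⟨h2, if_pos h2⟩
  rw [if_neg h2]; right
  by_cases h3 : q < 2 * Ln n + 1
  · exact Or.inl ⟨by omega, h3, if_pos h3⟩
  rw [if_neg h3]; right
  by_cases h4 : q < 3 * Ln n + 1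
  · exact Or.inl ⟨by omega, h4, if_pos h4⟩
  rw [if_neg h4]; right
  by_cases h5 : q = 3 * Ln n + 1
  · exact Or.inl ⟨h5, if_pos h5⟩
  rw [if_neg h5]; right
  by_cases h6 : q < 4 * Ln n + 2
  · exact Or.inl ⟨by omega, h6, if_pos h6⟩
  rw [if_neg h6]; right
  by_cases h7 : q = 4 * Ln n + 2
  · exact Or.inl ⟨h7, if_pos h7⟩
  rw [if_neg h7]; right
  by_cases h8 : q < 5 * Ln n + 3
  · exact Or.inl ⟨by omega, h8, if_pos h8⟩
  rw [if_neg h8]; right
  by_cases h9 : q < 6 * Ln n + 3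
  · exact Or.inl ⟨by omega, h9, if_pos h9⟩
  rw [if_neg h9]; right
  exact ⟨by omega, rfl⟩

lemma tc_zero (N c : ℕ) : tc N c 0 = c := rfl

lemma tc_pos (N c q : ℕ) (h : 1 ≤ q) : tc N c q = G N q := by
  unfold tc; rw [if_neg (by omega)]

lemma tc_cases (N c q : ℕ) : (q = 0 ∧ tc N c q = c) ∨ (1 ≤ q ∧ tc N c q = G N q) := by
  rcases Nat.eq_zero_or_pos q with h | h
  · left; exact ⟨h, by rw [h]; rfl⟩
  · right; exact ⟨h, tc_pos N c q h⟩

lemma G_le (n : ℕ) : ∀ q, G n q ≤ n := by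
  induction n with
  | zero => intro q; simp [G]
  | succ n ih =>
    intro q
    have htc : ∀ r, tc n (n + 1) r ≤ n + 1 := by
      intro r
      rcases tc_cases n (n + 1) r with h | h
      · rw [h.2]
      · rw [h.2]; exact (ih r).trans (Nat.le_succ n)
    rcases G_spec n q with h | h | h | h | h | h | h | h | h | h
    · rw [h.2]; exact (ih q).trans (Nat.le_succ n)
    · rw [h.2]; omega
    · rw [h.2.2]; exact htc _
    · rw [h.2.2]; exact htc _
    · rw [h.2]; omega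
    · rw [h.2.2]; exact htc _
    · rw [h.2]; omega
    · rw [h.2.2]; exact htc _
    · rw [h.2.2]; exact htc _
    · rw [h.2]; omega

lemma tc_eq_old {n c r : ℕ} (hcn : c ≤ n) (h : tc n (n + 1) r = c) : G n r = c := by
  rcases tc_cases n (n + 1) r with h' | h'
  · omega
  · rw [← h'.2]; exact h

lemma tc_eq_new {n r : ℕ} (h : tc n (n + 1) r = n + 1) : r = 0 := by
  rcases tc_cases n (n + 1) r with h' | h'
  · exact h'.1
  · have := G_le n r; omega

lemma G_cases (n q c : ℕ) (hc : 1 ≤ c) (hcn : c ≤ n) (h : G (n + 1) q = c) :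
    ∃ a q', (a = 0 ∨ a = Ln n + 1 ∨ a = 2 * Ln n + 1 ∨ a = 3 * Ln n + 2 ∨ a = 4 * Ln n + 3 ∨
      a = 5 * Ln n + 3) ∧ q = a + q' ∧ q' < Ln n ∧ G n q' = c := by
  rcases G_spec n q with h' | h' | h' | h' | h' | h' | h' | h' | h' | h'
  · exact ⟨0, q, by omega, by omega, by omega, by rw [← h'.2]; exact h⟩
  · omega
  · exact ⟨Ln n + 1, q - (Ln n + 1), by omega, by omega, by omega,
      tc_eq_old hcn (by rw [← h'.2.2]; exact h)⟩
  · exact ⟨2 * Ln n + 1, q - (2 * Ln n + 1), by omega, by omega, by omega,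
      tc_eq_old hcn (by rw [← h'.2.2]; exact h)⟩
  · omega
  · exact ⟨3 * Ln n + 2, q - (3 * Ln n + 2), by omega, by omega, by omega,
      tc_eq_old hcn (by rw [← h'.2.2]; exact h)⟩
  · omega
  · exact ⟨4 * Ln n + 3, q - (4 * Ln n + 3), by omega, by omega, by omega,
      tc_eq_old hcn (by rw [← h'.2.2]; exact h)⟩
  · exact ⟨5 * Ln n + 3, q - (5 * Ln n + 3), by omega, by omega, by omega,
      tc_eq_old hcn (by rw [← h'.2.2]; exact h)⟩
  · omega

/-- The token `e+1` at level `e+1` sits at five positions. -/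
lemma G_base (e q : ℕ) (h : G (e + 1) q = e + 1) :
    q = Ln e + 1 ∨ q = 2 * Ln e + 1 ∨ q = 3 * Ln e + 2 ∨ q = 4 * Ln e + 3 ∨ q = 5 * Ln e + 3 := by
  have hle := G_le e q
  rcases G_spec e q with h' | h' | h' | h' | h' | h' | h' | h' | h' | h'
  · omega
  · omega
  · have := tc_eq_new (h'.2.2.symm.trans h); omega
  · have := tc_eq_new (h'.2.2.symm.trans h); omega
  · omega
  · have := tc_eq_new (h'.2.2.symm.trans h); omega
  · omega
  · have := tc_eq_new (h'.2.2.symm.trans h); omega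
  · have := tc_eq_new (h'.2.2.symm.trans h); omega
  · omega

lemma G_bound (e n : ℕ) (hn : e + 1 ≤ n) :
    ∀ q, G n q = e + 1 → Ln e + 1 ≤ q ∧ q + Ln e + 1 ≤ Ln n := by
  induction n, hn using Nat.le_induction with
  | base =>
    intro q h
    have hL := Ln_pos e
    have := G_base e q h
    rw [Ln_succ]
    omega
  | succ n hn ih =>
    intro q h
    obtain ⟨a, q', ha, hq, hq', hG⟩ := G_cases n q (e + 1) (by omega) hn h
    have := ih q' hG
    rw [Ln_succ]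
    omega

lemma same_copy (M L a a' q q' : ℕ)
    (ha : a = 0 ∨ a = M + 1 ∨ a = 2 * M + 1 ∨ a = 3 * M + 2 ∨ a = 4 * M + 3 ∨ a = 5 * M + 3)
    (ha' : a' = 0 ∨ a' = M + 1 ∨ a' = 2 * M + 1 ∨ a' = 3 * M + 2 ∨ a' = 4 * M + 3 ∨
      a' = 5 * M + 3)
    (hq : L + 1 ≤ q ∧ q + L + 1 ≤ M) (hq' : L + 1 ≤ q' ∧ q' + L + 1 ≤ M)
    (h1 : a + q ≤ a' + q') (h2 : a' + q' ≤ a + q + L + 1) : a = a' := by
  rcases ha with ha | ha | ha | ha | ha | ha <;> rcases ha' with ha' | ha' | ha' | ha' | ha' | ha' <;>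
    omega

lemma G_no4 (e n : ℕ) (hn : e + 1 ≤ n) :
    ∀ J, G n J = e + 1 → G n (J + Ln e + 1) = e + 1 → G n (J + 2 * Ln e + 1) = e + 1 →
      G n (J + 3 * Ln e + 2) = e + 1 → False := by
  have hL := Ln_pos e
  induction n, hn using Nat.le_induction with
  | base =>
    intro J h1 h2 h3 h4
    have h1 := G_base e _ h1
    have h2 := G_base e _ h2
    have h3 := G_base e _ h3
    have h4 := G_base e _ h4
    omega
  | succ n hn ih =>
    intro J h1 h2 h3 h4
    obtain ⟨a1, q1, ha1, e1, l1, g1⟩ := G_cases n _ (e + 1) (by omega) hn h1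
    obtain ⟨a2, q2, ha2, e2, l2, g2⟩ := G_cases n _ (e + 1) (by omega) hn h2
    obtain ⟨a3, q3, ha3, e3, l3, g3⟩ := G_cases n _ (e + 1) (by omega) hn h3
    obtain ⟨a4, q4, ha4, e4, l4, g4⟩ := G_cases n _ (e + 1) (by omega) hn h4
    have b1 := G_bound e n hn q1 g1
    have b2 := G_bound e n hn q2 g2
    have b3 := G_bound e n hn q3 g3
    have b4 := G_bound e n hn q4 g4
    have s12 := same_copy (Ln n) (Ln e) a1 a2 q1 q2 ha1 ha2 b1 b2 (by omega) (by omega)
    have s23 := same_copy (Ln n) (Ln e) a2 a3 q2 q3 ha2 ha3 b2 b3 (by omega) (by omega)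
    have s34 := same_copy (Ln n) (Ln e) a3 a4 q3 q4 ha3 ha4 b3 b4 (by omega) (by omega)
    clear ha1 ha2 ha3 ha4
    refine ih q1 g1 ?_ ?_ ?_
    · rwa [show q1 + Ln e + 1 = q2 by omega]
    · rwa [show q1 + 2 * Ln e + 1 = q3 by omega]
    · rwa [show q1 + 3 * Ln e + 2 = q4 by omega]

lemma Ln_mono {m n : ℕ} (h : m ≤ n) : Ln m ≤ Ln n := by
  induction n, h using Nat.le_induction with
  | base => exact le_rfl
  | succ n hn ih => rw [Ln_succ]; omega

lemma G_stable {m n : ℕ} (h : m ≤ n) : ∀ q, q < Ln m → G n q = G m q := by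
  induction n, h using Nat.le_induction with
  | base => intro q _; rfl
  | succ n hn ih =>
    intro q hq
    have hqn : q < Ln n := lt_of_lt_of_le hq (Ln_mono hn)
    rcases G_spec n q with h' | h' | h' | h' | h' | h' | h' | h' | h' | h'
    · rw [h'.2]; exact ih q hq
    all_goals omega

lemma G_at (e : ℕ) : G (e + 1) (Ln e) = 0 ∧ G (e + 1) (3 * Ln e + 1) = 0 ∧
    G (e + 1) (4 * Ln e + 2) = 0 ∧ G (e + 1) (6 * Ln e + 3) = 0 := by
  have hL := Ln_pos e
  refine ⟨?_, ?_, ?_, ?_⟩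
  · rcases G_spec e (Ln e) with h' | h' | h' | h' | h' | h' | h' | h' | h' | h' <;> omega
  · rcases G_spec e (3 * Ln e + 1) with h' | h' | h' | h' | h' | h' | h' | h' | h' | h' <;> omega
  · rcases G_spec e (4 * Ln e + 2) with h' | h' | h' | h' | h' | h' | h' | h' | h' | h' <;> omega
  · rcases G_spec e (6 * Ln e + 3) with h' | h' | h' | h' | h' | h' | h' | h' | h' | h' <;> omega

lemma G_blk (e r : ℕ) (hr : r < Ln e) :
    (1 ≤ r → G (e + 1) r = tc e (e + 1) r) ∧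
    G (e + 1) (Ln e + 1 + r) = tc e (e + 1) r ∧ G (e + 1) (2 * Ln e + 1 + r) = tc e (e + 1) r ∧
    G (e + 1) (3 * Ln e + 2 + r) = tc e (e + 1) r ∧
    G (e + 1) (4 * Ln e + 3 + r) = tc e (e + 1) r ∧
    G (e + 1) (5 * Ln e + 3 + r) = tc e (e + 1) r := by
  refine ⟨?_, ?_, ?_, ?_, ?_, ?_⟩
  · intro h1
    rw [tc_pos _ _ _ h1]
    rcases G_spec e r with h' | h' | h' | h' | h' | h' | h' | h' | h' | h' <;>
      first | exact h'.2 | omega
  · rcases G_spec e (Ln e + 1 + r) with h' | h' | h' | h' | h' | h' | h' | h' | h' | h' <;>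
      first
        | omega
        | (rw [h'.2.2, show Ln e + 1 + r - (Ln e + 1) = r by omega])
  · rcases G_spec e (2 * Ln e + 1 + r) with h' | h' | h' | h' | h' | h' | h' | h' | h' | h' <;>
      first
        | omega
        | (rw [h'.2.2, show 2 * Ln e + 1 + r - (2 * Ln e + 1) = r by omega])
  · rcases G_spec e (3 * Ln e + 2 + r) with h' | h' | h' | h' | h' | h' | h' | h' | h' | h' <;>
      first
        | omega
        | (rw [h'.2.2, show 3 * Ln e + 2 + r - (3 * Ln e + 2) = r by omega])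
  · rcases G_spec e (4 * Ln e + 3 + r) with h' | h' | h' | h' | h' | h' | h' | h' | h' | h' <;>
      first
        | omega
        | (rw [h'.2.2, show 4 * Ln e + 3 + r - (4 * Ln e + 3) = r by omega])
  · rcases G_spec e (5 * Ln e + 3 + r) with h' | h' | h' | h' | h' | h' | h' | h' | h' | h' <;>
      first
        | omega
        | (rw [h'.2.2, show 5 * Ln e + 3 + r - (5 * Ln e + 3) = r by omega])

/-- A uniform description of `tc (e+1) (e+1)`. -/
lemma tc_blk (e r : ℕ) (hr : r < Ln e) : tc (e + 1) (e + 1) r = tc e (e + 1) r := by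
  rcases Nat.eq_zero_or_pos r with h | h
  · subst h; rfl
  · rw [tc_pos _ _ _ h]; exact (G_blk e r hr).1 h

lemma tc_period1 (e q : ℕ) (hq : q < 2 * Ln e + 1) :
    tc (e + 1) (e + 1) (q + (2 * Ln e + 1)) = tc (e + 1) (e + 1) q := by
  have hL := Ln_pos e
  rw [tc_pos _ _ (q + (2 * Ln e + 1)) (by omega)]
  have A := G_at e
  rcases lt_trichotomy q (Ln e) with h | h | h
  · rw [tc_blk e q h, show q + (2 * Ln e + 1) = 2 * Ln e + 1 + q by omega]
    exact (G_blk e q h).2.2.1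
  · subst h
    rw [tc_pos _ _ _ hL, A.1, show Ln e + (2 * Ln e + 1) = 3 * Ln e + 1 by omega, A.2.1]
  · obtain ⟨r, rfl⟩ : ∃ r, q = Ln e + 1 + r := ⟨q - (Ln e + 1), by omega⟩
    have hr : r < Ln e := by omega
    rw [tc_pos _ _ _ (by omega), (G_blk e r hr).2.1,
      show Ln e + 1 + r + (2 * Ln e + 1) = 3 * Ln e + 2 + r by omega]
    exact (G_blk e r hr).2.2.2.1

lemma tc_period2 (e q : ℕ) (hq : q < 3 * Ln e + 2) :
    tc (e + 1) (e + 1) (q + (3 * Ln e + 2)) = tc (e + 1) (e + 1) q := by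
  have hL := Ln_pos e
  rw [tc_pos _ _ (q + (3 * Ln e + 2)) (by omega)]
  have A := G_at e
  rcases lt_trichotomy q (Ln e) with h | h | h
  · rw [tc_blk e q h, show q + (3 * Ln e + 2) = 3 * Ln e + 2 + q by omega]
    exact (G_blk e q h).2.2.2.1
  · subst h
    rw [tc_pos _ _ _ hL, A.1, show Ln e + (3 * Ln e + 2) = 4 * Ln e + 2 by omega, A.2.2.1]
  · rw [tc_pos _ _ q (by omega)]
    rcases lt_or_ge q (2 * Ln e + 1) with h2 | h2
    · obtain ⟨r, rfl⟩ : ∃ r, q = Ln e + 1 + r := ⟨q - (Ln e + 1), by omega⟩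
      have hr : r < Ln e := by omega
      rw [(G_blk e r hr).2.1,
        show Ln e + 1 + r + (3 * Ln e + 2) = 4 * Ln e + 3 + r by omega]
      exact (G_blk e r hr).2.2.2.2.1
    · rcases lt_or_ge q (3 * Ln e + 1) with h3 | h3
      · obtain ⟨r, rfl⟩ : ∃ r, q = 2 * Ln e + 1 + r := ⟨q - (2 * Ln e + 1), by omega⟩
        have hr : r < Ln e := by omega
        rw [(G_blk e r hr).2.2.1,
          show 2 * Ln e + 1 + r + (3 * Ln e + 2) = 5 * Ln e + 3 + r by omega]
        exact (G_blk e r hr).2.2.2.2.2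
      · have : q = 3 * Ln e + 1 := by omega
        subst this
        rw [A.2.1, show 3 * Ln e + 1 + (3 * Ln e + 2) = 6 * Ln e + 3 by omega, A.2.2.2]

lemma tc_stable {e N : ℕ} (h : e + 1 ≤ N) (q : ℕ) (hq : q < Ln (e + 1)) :
    tc N (e + 1) q = tc (e + 1) (e + 1) q := by
  rcases Nat.eq_zero_or_pos q with h0 | h0
  · subst h0; rfl
  · rw [tc_pos _ _ _ h0, tc_pos _ _ _ h0]
    exact G_stable h q hq

lemma tc_at (e N : ℕ) (h : e + 1 ≤ N) :
    tc N (e + 1) 0 = e + 1 ∧ tc N (e + 1) (Ln e + 1) = e + 1 ∧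
      tc N (e + 1) (2 * Ln e + 1) = e + 1 ∧ tc N (e + 1) (3 * Ln e + 2) = e + 1 := by
  have hL := Ln_pos e
  have B := G_blk e 0 hL
  simp only [Nat.add_zero, tc_zero] at B
  refine ⟨rfl, ?_, ?_, ?_⟩
  · rw [tc_stable h _ (by rw [Ln_succ]; omega), tc_pos _ _ _ (by omega)]; exact B.2.1
  · rw [tc_stable h _ (by rw [Ln_succ]; omega), tc_pos _ _ _ (by omega)]; exact B.2.2.1
  · rw [tc_stable h _ (by rw [Ln_succ]; omega), tc_pos _ _ _ (by omega)]; exact B.2.2.2.1

lemma Ln_le (n : ℕ) : Ln n + 1 ≤ 2 * 6 ^ n := by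
  induction n with
  | zero => simp [Ln]
  | succ n ih => rw [Ln_succ, pow_succ]; omega

end Pool.Agent.N554.PW
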